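import Pool.Agent.Helper74.BS.St

set_option autoImplicit false

/-! Project BS (helper74), MP_26f0da_lc: module DT, one-way automata. -/

namespace Pool.Agent.Helper74.BS

open Pool.Agent.Helper73.DC

theorem hDT (hMT : StMT) (hD1 : StD1) (hD2 : StD2) : StDT := by
  intro α _ M c
  obtain ⟨h1, h2⟩ := hMT (Pool.Agent.Helper83.PT.mpd M) c
  have hK : ∀ n, 2 ≤ KK c n := fun n => by unfold KK; omega
  have e1 : ∀ w : List α, (∃ f, DTree M w f) ↔ ∃ F, MTree (Pool.Agent.Helper83.PT.mpd M) w F := by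
    intro w
    constructor
    · rintro ⟨f, hf⟩
      obtain ⟨F, hF, _⟩ := hD2 M w f hf
      exact ⟨F, hF⟩
    · rintro ⟨F, hF⟩
      obtain ⟨f, hf, _⟩ := hD1 M w F hF
      exact ⟨f, hf⟩
  have e2 : ∀ (w : List α) (K j : ℕ), 2 ≤ K →
      ((∃ f, DTree M w f ∧ cn K (j + 1) f = 0) ↔ ∃ F, MTree (Pool.Agent.Helper83.PT.mpd M) w F ∧ cn K (j + 1) F = 0) := by
    intro w K j h
    constructor
    · rintro ⟨f, hf, h0⟩
      obtain ⟨F, hF, hle⟩ := hD2 M w f hf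
      exact ⟨F, hF, Nat.eq_zero_of_le_zero ((hle K j h).trans h0.le)⟩
    · rintro ⟨F, hF, h0⟩
      obtain ⟨f, hf, hle⟩ := hD1 M w F hF
      exact ⟨f, hf, Nat.eq_zero_of_le_zero ((hle K (j + 1)).trans h0.le)⟩
  refine ⟨fun Rf hR => ?_, fun R => ?_⟩
  · obtain ⟨Lg, a1, a2, a3⟩ := h1 Rf hR
    refine ⟨Lg, a1, ?_, ?_⟩
    · intro w hw
      exact a2 ((e2 w _ _ (hK _)).1 hw)
    · intro w hw
      exact (e1 w).2 (a3 hw)
  · have e3 : {w : List α | ∃ f, DTree M w f ∧ cn (KK c w.length) (R + 1) f = 0} =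
        {w : List α | ∃ F, MTree (Pool.Agent.Helper83.PT.mpd M) w F ∧ cn (KK c w.length) (R + 1) F = 0} := by
      ext w
      exact e2 w _ _ (hK _)
    rw [e3]
    exact h2 R

end Pool.Agent.Helper74.BS
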