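import Pool.Agent.Helper74.BS.St2

set_option autoImplicit false

/-! Project BS (helper74), MP_26f0da_lc: module DT2, one-way automata, non-constant rank. -/

namespace Pool.Agent.Helper74.BS

open Pool.Agent.Helper73.DC

theorem hDT2 (hMT2 : StMT2) (hD1 : StD1) (hD2 : StD2) : StDT2 := by
  intro α _ M c d Rf hR hd
  have hK : ∀ n, 2 ≤ KK c n := fun n => by unfold KK; omega
  have e3 : {w : List α | ∃ f, DTree M w f ∧ cn (KK c w.length) (Rf w.length + 1) f = 0} =
      {w : List α | ∃ F, MTree (Pool.Agent.Helper83.PT.mpd M) w F ∧ cn (KK c w.length) (Rf w.length + 1) F = 0} := by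
    ext w
    constructor
    · rintro ⟨f, hf, h0⟩
      obtain ⟨F, hF, hle⟩ := hD2 M w f hf
      exact ⟨F, hF, Nat.eq_zero_of_le_zero ((hle _ _ (hK _)).trans h0.le)⟩
    · rintro ⟨F, hF, h0⟩
      obtain ⟨f, hf, hle⟩ := hD1 M w F hF
      exact ⟨f, hf, Nat.eq_zero_of_le_zero ((hle _ _).trans h0.le)⟩
  rw [e3]
  exact hMT2 (Pool.Agent.Helper83.PT.mpd M) c d Rf hR hd

end Pool.Agent.Helper74.BS
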