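import Pool.Agent.Helper74.BS.St

set_option autoImplicit false

/-! Project BS (helper74), MP_26f0da_lc: statements, second part: the exact set for a non-constant rank R(n) = O(log n / log K(n)). -/

namespace Pool.Agent.Helper74.BS

open Pool.Agent.Helper73.DC
open Finset
open scoped Classical

/-- The number of vectors of length `Mf n`. -/
def VVf (c : ℕ) (Mf : ℕ → ℕ) (n : ℕ) : ℕ := (KK c n + 1) ^ Mf n

/-- MODULE AU2 (hypotheses StL1 .. StL5, StVE).  As StAU, for vectors of non-constant length Mf n with (K+1)^(Mf n) ≤ (n+2)^d.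
Proof.  V = VVf = pw ((n+2)^d) (K+1) (Mf n) (StL5), since V ≤ (n+2)^d.  addv K m a b with m = Mf |w|: the sum over r < m (StL3, first part) of min K (dg (K+1) a r + dg (K+1) b r) * (K+1)^r, where (K+1)^r for r < m may be replaced by
pw ((n+2)^d) (K+1) r.  cmb K m a: the sum over r < m of tt K a r * pw .. r, where tt K a r is E2 as a function of (r, K, a) by bounded recursion (`E2.brec` or `E2.nrec`; tt K a 0 = max 1 (dg (K+1) a 0), tt K a (r+1) =
max (if K ≤ tt K a r then 1 else 0) (dg (K+1) a (r+1)); the values are ≤ K + 1).  The last two functions: `/`, `%`, dg (StL4, StL5).  Bounds as in StAU with V ≤ (n+2)^d: everything is < 4 X0 V ≤ (n+2)^(e + 2 + d). -/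
def StAU2 : Prop :=
  ∀ {α : Type} [Fintype α] (cl lf tn : List α → ℕ → ℕ) (rs : List α → ℕ → ℕ → ℕ) (c0 : List α → ℕ) (e c d : ℕ) (Mf If : ℕ → ℕ),
    E2 (fun w v => cl w (v 0)) → E2 (fun w v => rs w (v 0) (v 1)) → E2 (fun w v => lf w (v 0)) → E2 (fun w v => tn w (v 0)) →
    E2 (fun w _ => c0 w) → E2 (α := α) (fun w _ => Mf w.length) → E2 (α := α) (fun w _ => If w.length) →
    (∀ n, (KK c n + 1) ^ Mf n ≤ (n + 2) ^ d) →
    (∀ w x, cl w x < (w.length + 2) ^ e) → (∀ w x r, rs w x r < (w.length + 2) ^ e) → (∀ w x, lf w x < (w.length + 2) ^ e) →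
    (∀ w, c0 w < (w.length + 2) ^ e) →
    E2 (fun w v => lfA (VVf c Mf w.length) ((w.length + 2) ^ e) (lf w) (v 0)) ∧
    E2 (fun w v => clA (VVf c Mf w.length) (cl w) (rs w) (tn w) (v 0)) ∧
    E2 (fun w v => rsA (KK c w.length) (Mf w.length) (VVf c Mf w.length) ((w.length + 2) ^ e) (rs w) (tn w) (v 0) (v 1)) ∧
    E2 (fun w _ => c0 w * VVf c Mf w.length) ∧
    E2P (α := α) (fun w v => v 0 / VVf c Mf w.length = 0 ∧ dg (KK c w.length + 1) (v 0 % VVf c Mf w.length) (If w.length) = 0) ∧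
    ∃ e' : ℕ, (∀ w x, lfA (VVf c Mf w.length) ((w.length + 2) ^ e) (lf w) x < (w.length + 2) ^ e') ∧
      (∀ w x, clA (VVf c Mf w.length) (cl w) (rs w) (tn w) x < (w.length + 2) ^ e') ∧
      (∀ w x r, rsA (KK c w.length) (Mf w.length) (VVf c Mf w.length) ((w.length + 2) ^ e) (rs w) (tn w) x r < (w.length + 2) ^ e') ∧
      (∀ w, c0 w * VVf c Mf w.length < (w.length + 2) ^ e')

/-- MODULE AF2 (hypotheses StAB, StAU2, StCO, StSO, StVE).  The abstract theorem, exact set for non-constant R(n) with (K(n)+1)^(R(n)+2) ≤ (n+2)^d.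
Proof.  As StAF, second claim, with Mf n = Rf n + 2, If n = Rf n + 1: dg (K+1) (vec K m f) (R+1) = min K (cn K (R+1) f) = 0 iff cn K (R+1) f = 0, so L1 = L2 in StAB (levels Rf n + 1), and DSPACE of (Rf n + 2) log (n+2) is in DSPACE of
(Rf n + 1) log (n+2). -/
def StAF2 : Prop :=
  ∀ {α : Type} [Fintype α] (cl lf tn : List α → ℕ → ℕ) (rs : List α → ℕ → ℕ → ℕ) (c0 : List α → ℕ) (gd : List α → ℕ → Prop) (e c L : ℕ),
    E2 (fun w v => cl w (v 0)) → E2 (fun w v => rs w (v 0) (v 1)) → E2 (fun w v => lf w (v 0)) → E2 (fun w v => tn w (v 0)) →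
    E2 (fun w _ => c0 w) →
    (∀ w x, cl w x < (w.length + 2) ^ e) → (∀ w x r, rs w x r < (w.length + 2) ^ e) → (∀ w x, lf w x < (w.length + 2) ^ e) →
    (∀ w, c0 w < (w.length + 2) ^ e) →
    (∀ w, gd w (c0 w)) →
    (∀ w x, gd w x → lf w x = 0 → tn w x ≠ 0 → gd w (rs w x 0)) →
    (∀ w x, gd w x → lf w x = 0 → tn w x = 0 →
      gd w (cl w x) ∧ ∀ r f, EvF (lf w) (cl w) (rs w) (tn w) (cl w x) r f → f ≠ Fo.nil ∧ gd w (rs w x r)) →
    (∀ w x r f, gd w x → EvF (lf w) (cl w) (rs w) (tn w) x r f → wd f ≤ L) →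
    ∀ (Rf : ℕ → ℕ) (d : ℕ), E2 (α := α) (fun w _ => Rf w.length) → (∀ n, (KK c n + 1) ^ (Rf n + 2) ≤ (n + 2) ^ d) →
      {w | ∃ f, EvF (lf w) (cl w) (rs w) (tn w) (c0 w) 0 f ∧ cn (KK c w.length) (Rf w.length + 1) f = 0} ∈
        DSPACE (α := α) (fun n => (Rf n + 1) * Nat.log 2 (n + 2))

/-- MODULE MT2 (as StMT, from StAF2).  Multihead automata, exact set for non-constant R(n). -/
def StMT2 : Prop :=
  ∀ {α : Type} [Fintype α] (M : MPDA α) (c d : ℕ) (Rf : ℕ → ℕ), E2 (α := α) (fun w _ => Rf w.length) →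
    (∀ n, (KK c n + 1) ^ (Rf n + 2) ≤ (n + 2) ^ d) →
    {w | ∃ f, MTree M w f ∧ cn (KK c w.length) (Rf w.length + 1) f = 0} ∈ DSPACE (α := α) (fun n => (Rf n + 1) * Nat.log 2 (n + 2))

/-- MODULE DT2 (from StMT2, StD1, StD2).  One-way automata, exact set for non-constant R(n). -/
def StDT2 : Prop :=
  ∀ {α : Type} [Fintype α] (M : DPDA α) (c d : ℕ) (Rf : ℕ → ℕ), E2 (α := α) (fun w _ => Rf w.length) →
    (∀ n, (KK c n + 1) ^ (Rf n + 2) ≤ (n + 2) ^ d) →
    {w | ∃ f, DTree M w f ∧ cn (KK c w.length) (Rf w.length + 1) f = 0} ∈ DSPACE (α := α) (fun n => (Rf n + 1) * Nat.log 2 (n + 2))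

end Pool.Agent.Helper74.BS
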