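import Pool.Agent.Helper83.PT.Final2
import Pool.Agent.Helper74.BS.St2
import Pool.Agent.Helper74.BS.M_DT
import Pool.Agent.Helper74.BS.M_DT2
import Pool.Agent.Helper24.BS.M_AB
import Pool.Agent.Helper32.BS.M_AF
import Pool.Agent.Helper38.BS.M_FO
import Pool.Agent.Helper4.BS.M_FI
import Pool.Agent.Helper53.BS.M_D1
import Pool.Agent.Helper58.BS.M_D2
import Pool.Agent.Helper62.BS.M_SO
import Pool.Agent.Helper64.BS.M_MT
import Pool.Agent.Helper65.BS.M_TU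
import Pool.Agent.Helper8.BS.M_LG
import Pool.Agent.Helper80.BS.M_VE
import Pool.Agent.Helper81.BS.M_AF2
import Pool.Agent.Helper85.BS.M_AK
import Pool.Agent.Helper88.BS.M_MR2
import Pool.Agent.Helper9.BS.M_CO
import Pool.Agent.Helper90.BS.M_MR1
import Pool.Agent.Helper10.BS.M_AU2

set_option autoImplicit false

/-! Project BS (helper74), MP_26f0da_lc: assembly of the modules. -/

namespace Pool.Agent.Helper74.BS

open Pool.Agent.Helper73.DC (tL1 tL2 tL3 tL4 tL5 tM7 tF6 tF7 tTOP tG1 tG3)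
open Pool.Agent.Helper83.PT (tG2 tG6 tP0 tP10 tA1 tA2 tA3)

theorem tFO : StFO := Pool.Agent.Helper38.BS.hFO
theorem tVE : StVE := Pool.Agent.Helper80.BS.hVE
theorem tAK : StAK := Pool.Agent.Helper85.BS.hAK Pool.Agent.Helper37.DC.mSS Pool.Agent.Helper37.DC.mSC tG6
theorem tAB : StAB := Pool.Agent.Helper24.BS.hAB tP0 tP10 tM7 tF6 tF7 tTOP tA1 tA2 tA3 tAK tL1 tL2 tL3 tL4 tL5
theorem tAU : StAU := Pool.Agent.Helper10.BS.hAU tL1 tL2 tL3 tL4 tL5 tVE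
theorem tAU2 : StAU2 := Pool.Agent.Helper10.BS.hAU2 tL1 tL2 tL3 tL4 tL5 tVE
theorem tCO : StCO := Pool.Agent.Helper9.BS.hCO tFO tVE
theorem tSO : StSO := Pool.Agent.Helper62.BS.hSO tVE
theorem tAF : StAF := Pool.Agent.Helper32.BS.hAF tAB tAU tCO tSO tVE tA2 tL1 tL2
theorem tAF2 : StAF2 := Pool.Agent.Helper81.BS.hAF2 tAB tAU2 tCO tSO tVE tL1 tL2
theorem tFI : StFI := Pool.Agent.Helper4.BS.hFI tFO
theorem tMR1 : StMR1 := Pool.Agent.Helper90.BS.hMR1 tG3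
theorem tMR2 : StMR2 := Pool.Agent.Helper88.BS.hMR2 tG3
theorem tMT : StMT := Pool.Agent.Helper64.BS.hMT tAF tFO tFI tMR1 tMR2 tG1 tG2 tG3 tL1 tL2
theorem tMT2 : StMT2 := Pool.Agent.Helper64.BS.hMT2 tAF2 tFI tMR1 tMR2 tG1 tG2 tG3 tL2
theorem tD1 : StD1 := Pool.Agent.Helper53.BS.hD1 tFO
theorem tD2 : StD2 := Pool.Agent.Helper58.BS.hD2 tFO
theorem tDT : StDT := hDT tMT tD1 tD2
theorem tDT2 : StDT2 := hDT2 tMT2 tD1 tD2
theorem tLG : StLG := Pool.Agent.Helper8.BS.hLG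
theorem tTU : StTU := Pool.Agent.Helper65.BS.hTU

end Pool.Agent.Helper74.BS
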