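import Pool.Agent.Helper73.DC.Mda

set_option autoImplicit false

/-! Project BS (helper74), MP_26f0da_lc: the forest of a run of a pushdown automaton and its Strahler numbers (definitions). -/

namespace Pool.Agent.Helper74.BS

open Pool.Agent.Helper73.DC

/-! ### Forests -/

/-- Finite ordered forests: the empty forest, and `nd a b`: the root of the first tree has the forest `a` below it (its children are the roots of `a`),
the other trees form the forest `b`. -/
inductive Fo where
  | nil : Fo
  | nd : Fo → Fo → Fo

/-- Number of leaves.  It is the maximal number of pairwise disjoint subtrees (a subtree consists of a node and everything below it). -/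
def lv : Fo → ℕ
  | Fo.nil => 0
  | Fo.nd a b => max 1 (lv a) + lv b

/-- The maximal number of pairwise disjoint subtrees `t` with `K ≤ g t` (if `g` does not decrease from a subtree to a subtree which contains it): a tree is
counted once, or its subtrees below the root are taken. -/
def cnS (K : ℕ) (g : Fo → ℕ) : Fo → ℕ
  | Fo.nil => 0
  | Fo.nd a b => max (if K ≤ g (Fo.nd a Fo.nil) then 1 else 0) (cnS K g a) + cnS K g b

/-- `cn K r f` is the maximal number of pairwise disjoint subtrees of rank at least `r` of the forest `f`, where every tree has rank at least 0 and a tree
has rank at least `r + 1` if it contains at least `K` pairwise disjoint subtrees of rank at least `r`.  (For `K = 2` the rank of a tree is its Horton-Strahler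
number.)  So all subtrees of `f` have rank at most `r` if and only if `cn K (r + 1) f = 0`. -/
def cn (K : ℕ) : ℕ → Fo → ℕ
  | 0 => lv
  | r + 1 => cnS K (cn K r)

/-! ### Forests of runs

A pushdown system with configurations `C`, stack symbols `G` and moves `mv c Z c' γ`: in the configuration `c` with the top stack symbol `Z` the move to the
configuration `c'` is possible which replaces the top symbol `Z` by the word `γ` (its first letter is the new top).  The forest of a run: its nodes are the
moves of the run; the children of a move that pushes the word `γ` are the moves which replace the letters of `γ`, and the roots are the moves which replace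
the letters of the stack at the beginning. -/

section
variable {C G : Type}

/-- A run from the configuration `c` with the stack `β` to the configuration `c'` with the empty stack (the symbols below `β` are not touched), and its forest. -/
inductive Pops (mv : C → G → C → List G → Prop) : C → List G → C → Fo → Prop where
  | nil (c : C) : Pops mv c [] c Fo.nil
  | cons (c c1 c2 c3 : C) (Z : G) (γ β : List G) (f g : Fo) : mv c Z c1 γ → Pops mv c1 γ c2 f → Pops mv c2 β c3 g →
      Pops mv c (Z :: β) c3 (Fo.nd f g)

/-- A run from the configuration `c` with the stack `β` to a configuration in `F` (with some stack), and its forest. -/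
inductive Accs (mv : C → G → C → List G → Prop) (F : C → Prop) : C → List G → Fo → Prop where
  | fin (c : C) (β : List G) : F c → Accs mv F c β Fo.nil
  | down (c c1 : C) (Z : G) (γ β : List G) (f : Fo) : mv c Z c1 γ → Accs mv F c1 γ f → Accs mv F c (Z :: β) (Fo.nd f Fo.nil)
  | next (c c1 c2 : C) (Z : G) (γ β : List G) (f g : Fo) : mv c Z c1 γ → Pops mv c1 γ c2 f → Accs mv F c2 β g →
      Accs mv F c (Z :: β) (Fo.nd f g)

end

/-! ### Pushdown automata -/

/-- Moves of a deterministic two-way multihead pushdown automaton on the input `w`; configurations: state and head positions. -/
def mmv {α : Type} (M : MPDA α) (w : List α) (c : M.Q × (Fin M.k → ℕ)) (Z : M.Γ) (c' : M.Q × (Fin M.k → ℕ)) (γ : List M.Γ) : Prop :=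
  ∃ d : Fin M.k → Mv, M.tr c.1 Z (fun j => symAt w (c.2 j)) = some (c'.1, d, γ) ∧ c'.2 = nps w d c.2

/-- `f` is the forest of a run of `M` on `w` from the initial configuration to an accepting state. -/
def MTree {α : Type} (M : MPDA α) (w : List α) (f : Fo) : Prop :=
  Accs (mmv M w) (fun c => M.acc c.1) (M.q0, fun _ => 0) [M.z0] f

/-- Moves of a (one-way) deterministic pushdown automaton; configurations: state and rest of the input. -/
def dmv {α : Type} (M : DPDA α) (c : M.Q × List α) (Z : M.Γ) (c' : M.Q × List α) (γ : List M.Γ) : Prop :=
  (∃ a : α, c.2 = a :: c'.2 ∧ M.tr c.1 Z a = some (c'.1, γ)) ∨ (c.2 = c'.2 ∧ M.ep c.1 Z = some (c'.1, γ))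

/-- `f` is the forest of a run of `M` from the initial configuration with the input `w` to an accepting state after the whole input is read. -/
def DTree {α : Type} (M : DPDA α) (w : List α) (f : Fo) : Prop :=
  Accs (dmv M) (fun c => M.acc c.1 ∧ c.2 = []) (M.q0, w) [M.z0] f

end Pool.Agent.Helper74.BS
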