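import Pool.Agent.Helper74.BS.Defs
import Pool.Agent.Helper73.DC.St8
import Pool.Agent.Helper83.PT.St7

set_option autoImplicit false

/-! Project BS (helper74), MP_26f0da_lc: statements of the modules, with proofs in words.

THEOREM of the project.  For every deterministic pushdown automaton M (one-way, or two-way with several heads, without a time bound), every c and R the set of
the words w accepted by a run whose forest f has cn K (R + 1) f = 0, K = (log |w|)^c + 2, is in DSPACE(log n); and for an E2 function R(n) there is a language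
between {w : accepted by a run with cn K (R(|w|) + 1) f = 0} and the language of M in DSPACE((R(n) + 1) log (n + 2)).

The project reuses the projects DC (helper73) and PT (helper83); available as proved theorems (file Pool/Agent/Helper83/PT/Final2.lean):
tL1 .. tL6 : StL1 .. StL6, tG1 : StG1, tG2 : StG2, tG3 : StG3, tG6 : StG6, tA1, tA2, tA3, tP0, tP10, tM7, tF6, tF7, tTOP, mSS : StSS, mSC : StSC. -/

namespace Pool.Agent.Helper74.BS

open Pool.Agent.Helper73.DC
open Finset
open scoped Classical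

/-! ### Forests -/

/-- Concatenation. -/
def app : Fo → Fo → Fo
  | Fo.nil, g => g
  | Fo.nd a b, g => Fo.nd a (app b g)

/-- Number of trees. -/
def wd : Fo → ℕ
  | Fo.nil => 0
  | Fo.nd _ b => wd b + 1

/-- MODULE FO.  Forests.
Proof.  (1) Induction on f (j = 0 and j = j' + 1 separately; cn K 0 = lv and cn K (j+1) = cnS K (cn K j) by rfl).  (2) Induction on j: for j + 1 the condition K ≤ cn K j (nd a nil) is
monotone by the induction hypothesis applied with b = b' = nil.  (3) Induction on j: j = 0: max 1 (max 1 x + 0) = max 1 x; j + 1: by the induction hypothesis with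
b = nil the two indicators are equal, and max I (max I A + 0) = max I A.  (4) cases on j.  (5) Induction on f: for a tree t = nd a nil of f the indicator is 0, so cn K j t < K, and cn K j (nd a b) =
cn K j (nd a nil) + cn K j b.  (6) f = nil: cn K j (nd nil nil) ≤ 1 < K by induction on j; f = nd a nil: (3).  (7) cases on f.
(9) K * cn K (r+1) f ≤ cn K r f by induction on f (indicator 1: K ≤ cn K r (nd a nil); K * cn K (r+1) a ≤ cn K r a ≤ cn K r (nd a nil); cn K r (nd a b) = cn K r (nd a nil) + cn K r b), then induction on r. -/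
def StFO : Prop :=
  (∀ (K j : ℕ) (f g : Fo), cn K j (app f g) = cn K j f + cn K j g) ∧
  (∀ a b a' b' : Fo, (∀ K j, cn K j a ≤ cn K j a') → (∀ K j, cn K j b ≤ cn K j b') →
    ∀ K j, cn K j (Fo.nd a b) ≤ cn K j (Fo.nd a' b')) ∧
  (∀ (K j : ℕ) (a b : Fo), cn K j (Fo.nd (Fo.nd a Fo.nil) b) = cn K j (Fo.nd a b)) ∧
  (∀ (K j : ℕ) (f g : Fo), cn K j f ≤ cn K j (Fo.nd f g)) ∧
  (∀ (K j : ℕ) (f : Fo), cn K (j + 1) f = 0 → cn K j f ≤ wd f * K) ∧
  (∀ (K j : ℕ) (f : Fo), 2 ≤ K → wd f ≤ 1 → cn K (j + 1) (Fo.nd f Fo.nil) = cn K (j + 1) f) ∧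
  (∀ (K : ℕ) (f : Fo), f ≠ Fo.nil → 1 ≤ cn K 0 f) ∧
  (∀ f g : Fo, wd (app f g) = wd f + wd g) ∧
  (∀ (K r : ℕ) (f : Fo), K ^ r * cn K r f ≤ lv f)

/-! ### Vectors -/

/-- The number with the digits `v 0, .., v (m-1)` in base `B`. -/
def vcod (B m : ℕ) (v : ℕ → ℕ) : ℕ := ∑ r ∈ range m, v r * B ^ r

/-- The code of the numbers `cn K r f`, r < m, truncated at `K`. -/
def vec (K m : ℕ) (f : Fo) : ℕ := vcod (K + 1) m (fun r => min K (cn K r f))

/-- Truncated addition. -/
def addv (K m a b : ℕ) : ℕ := vcod (K + 1) m (fun r => min K (dg (K + 1) a r + dg (K + 1) b r))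

/-- The digits of the vector of the tree `nd f nil`, from those of `f`. -/
def tt (K a : ℕ) : ℕ → ℕ
  | 0 => max 1 (dg (K + 1) a 0)
  | r + 1 => max (if K ≤ tt K a r then 1 else 0) (dg (K + 1) a (r + 1))

/-- The vector of the tree `nd f nil`, from that of `f`. -/
def cmb (K m a : ℕ) : ℕ := vcod (K + 1) m (tt K a)

/-- MODULE VE.  Vectors.
Proof.  General facts for v r < B, r < m: vcod B m v < B^m (induction on m) and dg B (vcod B m v) r = v r for r < m (induction on m, or `Finset.sum_range_succ'`); a number a < B^m is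
vcod B m (dg B a) (induction on m: a % B^(m+1) = a % B^m + dg B a m * B^m).  tt K a r ≤ K for 1 ≤ K (dg < K + 1).  The vector of a tree: min K (cn K r (nd f nil)) = tt K (vec K m f) r for r < m by
induction on r: cn K 0 (nd f nil) = max 1 (cn K 0 f), cn K (r+1) (nd f nil) = max (if K ≤ cn K r (nd f nil) then 1 else 0) (cn K (r+1) f), and K ≤ x ↔ K ≤ min K x.  Sums: FO (1).
Associativity: digits: min K (min K (a + b) + c) = min K (a + min K (b + c)). -/
def StVE : Prop :=
  (∀ (K m : ℕ) (f : Fo), vec K m f < (K + 1) ^ m) ∧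
  (∀ K m a b : ℕ, addv K m a b < (K + 1) ^ m) ∧
  (∀ K m a : ℕ, 1 ≤ K → cmb K m a < (K + 1) ^ m) ∧
  (∀ (K m : ℕ) (f : Fo), 1 ≤ K → vec K m (Fo.nd f Fo.nil) = cmb K m (vec K m f)) ∧
  (∀ (K m : ℕ) (f g : Fo), vec K m (app f g) = addv K m (vec K m f) (vec K m g)) ∧
  (∀ K m a b c : ℕ, addv K m (addv K m a b) c = addv K m a (addv K m b c)) ∧
  (∀ K m a : ℕ, a < (K + 1) ^ m → addv K m a 0 = a ∧ addv K m 0 a = a) ∧
  (∀ K m : ℕ, vec K m Fo.nil = 0) ∧
  (∀ (K m : ℕ) (f : Fo) (r : ℕ), r < m → dg (K + 1) (vec K m f) r = min K (cn K r f))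

/-- The parameter `K` as a function of the length of the input. -/
def KK (c n : ℕ) : ℕ := Nat.log 2 n ^ c + 2

/-- The number of vectors. -/
def VV (c m n : ℕ) : ℕ := (KK c n + 1) ^ m

/-! ### Derivations with forests -/

/-- Derivations of a call structure with forests: `tn x ≠ 0` means that the node `x` is a node of the forest. -/
inductive EvF (lf cl : ℕ → ℕ) (rs : ℕ → ℕ → ℕ) (tn : ℕ → ℕ) : ℕ → ℕ → Fo → Prop where
  | leaf (x r : ℕ) : lf x = r + 1 → EvF lf cl rs tn x r Fo.nil
  | tree (x r : ℕ) (f : Fo) : lf x = 0 → tn x ≠ 0 → EvF lf cl rs tn (rs x 0) r f → EvF lf cl rs tn x r (Fo.nd f Fo.nil)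
  | node (x r1 r2 : ℕ) (f1 f2 : Fo) : lf x = 0 → tn x = 0 → EvF lf cl rs tn (cl x) r1 f1 → EvF lf cl rs tn (rs x r1) r2 f2 →
      EvF lf cl rs tn x r2 (app f1 f2)

/-- Rank of a derivation.  `EvK lf cl rs TH j x r c`: a derivation of the value `r` of the node `x` such that, at level `j`, it has at most `c`
innermost heavy nodes; derivations with less than `TH` of them are light at level `j + 1`. -/
inductive EvK (lf cl : ℕ → ℕ) (rs : ℕ → ℕ → ℕ) (TH : ℕ) : ℕ → ℕ → ℕ → ℕ → Prop where
  | leaf (j x r : ℕ) : lf x = r + 1 → EvK lf cl rs TH j x r 0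
  | up (j x r c : ℕ) : EvK lf cl rs TH j x r c → c < TH → EvK lf cl rs TH (j + 1) x r 0
  | node (j x r1 c1 r2 c2 : ℕ) : lf x = 0 → EvK lf cl rs TH j (cl x) r1 c1 → EvK lf cl rs TH j (rs x r1) r2 c2 →
      EvK lf cl rs TH j x r2 (max 1 (c1 + c2))

/-- MODULE AK (hypotheses StSS, StSC, StG6).  Correctness of the levels.
Template: Pool/Agent/Helper12/PT/M_A4.lean (StA4); there TH = 2, e0 = 1 and level `j` is (SP ..)^[j] lf.
Proof.  S := SP D kk cl rs, g_i = S^[i] lf.  (a) g_i x = ρ + 1 implies Ev lf .. x ρ (StSS, induction on i), lf x ≠ 0 → g_i x ≠ 0; more generally relative to g_b: g_b x ≠ 0 → g_(b+i) x ≠ 0, and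
g_(b+i) x = ρ + 1 → ∃ m n, Ev g_b cl rs wt x ρ m n for every wt (StSS with lf := g_b; g_(b+i) = S^[i] g_b).  (b) EvK .. j x r c, x < D → ∃ m' n', Ev g_(e0 j) cl rs wt_j x r m' n' ∧ m' ≤ c, where
wt_j = `wj` (of the template) of g_(e0 j).  Induction on EvK; leaf and node as in the template.  up: Ev g_(e0 j) .. with m' ≤ c < TH ≤ k^e0; claim: m' < k^i → g_(e0 j + i) x ≠ 0, for all x < D, by
induction on i (i = 0: measure 0 is light, as in the template; step: StSC with lf := g_(e0 j), f := g_(e0 j + i), wt := wt_j, K := k^i); so g_(e0 (j+1)) x ≠ 0 and the value is r by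
uniqueness (StG6).  So EvK .. R x r 0 → g_(e0 R) x = r + 1 (measure 0 is light).  The second part is (a). -/
def StAK : Prop :=
  ∀ (lf cl : ℕ → ℕ) (rs : ℕ → ℕ → ℕ) (D kk k TH e0 : ℕ), (∀ x, cl x < D ∧ ∀ r, rs x r < D) → 2 * k ≤ kk → TH ≤ k ^ e0 →
    ∀ R c r : ℕ, c < D →
      (EvK lf cl rs TH R c r 0 → (SP D kk cl rs)^[e0 * R] lf c = r + 1) ∧
      ((SP D kk cl rs)^[e0 * R] lf c = r + 1 → ∃ m n, Ev lf cl rs (fun _ => 0) c r m n)

/-- MODULE AB (hypotheses StP0, StP10, StM7, StF6, StF7, StTOP, StA1, StA2, StA3 of PT, StAK, StL1 .. StL5).  The abstract theorem.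
Template: Pool/Agent/Helper26/PT/M_A5.lean (StABS), with the following changes.  (i) e0 := the exponent of StA2 (first part) for c (there R0): c (log n)^c + c < (2^eee n)^e0.  The number of
levels is now the function R(w) = e0 * Rf |w| (there the constant 2 + R0): in `e2_ctx` the entry R is the E2 function e0 * Rf |w|; C2 becomes the function C2 n = 2 * (40 * C * (R n + 1) + C + (2 + 3 * S +
C * d) * (R n + 1)) and StTOP is used with Rf := C2 (an E2 function of |w|), N = (n+2)^(C2 n).  (ii) The last test: the value v = S^[R] (lf w) (c0 w) is not 0 and gv w (v - 1): the E2 function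
`if v ≠ 0 ∧ gv w (v - 1) then 1 else 0`; the language is Lg := {w | that}.  (iii) StAK with TH, k = 2^eee n, D = p 3 = (n+2)^(e0'), kk = p 11: L1 ⊆ Lg (EvK gives v = r + 1) and Lg ⊆ L2.
(iv) DSPACE of (C2 n + 1) log (n+2) is contained in DSPACE of (Rf n + 1) log (n+2): `dspace_mono` of the template, C2 n + 1 ≤ C' (Rf n + 1). -/
def StAB : Prop :=
  ∀ {α : Type} [Fintype α] (L1 L2 : Set (List α)) (cl lf : List α → ℕ → ℕ) (rs : List α → ℕ → ℕ → ℕ) (c0 : List α → ℕ)
    (gv : List α → ℕ → Prop) (Rf : ℕ → ℕ) (e c : ℕ),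
    E2 (fun w v => cl w (v 0)) → E2 (fun w v => rs w (v 0) (v 1)) → E2 (fun w v => lf w (v 0)) → E2 (fun w _ => c0 w) →
    E2P (fun w v => gv w (v 0)) → E2 (α := α) (fun w _ => Rf w.length) →
    (∀ w x, cl w x < (w.length + 2) ^ e) → (∀ w x r, rs w x r < (w.length + 2) ^ e) → (∀ w x, lf w x < (w.length + 2) ^ e) →
    (∀ w, c0 w < (w.length + 2) ^ e) →
    (∀ w ∈ L1, ∃ r TH, TH ≤ c * Nat.log 2 w.length ^ c + c ∧ gv w r ∧ EvK (lf w) (cl w) (rs w) TH (Rf w.length) (c0 w) r 0) →
    (∀ w r m n, Ev (lf w) (cl w) (rs w) (fun _ => 0) (c0 w) r m n → gv w r → w ∈ L2) →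
    ∃ Lg : Set (List α), Lg ∈ DSPACE (α := α) (fun n => (Rf n + 1) * Nat.log 2 (n + 2)) ∧ L1 ⊆ Lg ∧ Lg ⊆ L2

/-! ### The call structure which computes the vectors

Nodes: x V + a stands for `the node x, to be evaluated when the vector of the part of the forest on the left is a` (x < X0, a < V); (X0 + r) V + a is a leaf with
the value r V + a.  The value of the node x V + a is r V + (a ⊕ vector of the forest of x) where r is the value of x. -/

noncomputable def lfA (V X0 : ℕ) (lf : ℕ → ℕ) (y : ℕ) : ℕ :=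
  if X0 ≤ y / V then min (y / V - X0) X0 * V + y % V + 1
  else if lf (y / V) = 0 then 0 else (lf (y / V) - 1) * V + y % V + 1

noncomputable def clA (V : ℕ) (cl : ℕ → ℕ) (rs : ℕ → ℕ → ℕ) (tn : ℕ → ℕ) (y : ℕ) : ℕ :=
  if tn (y / V) = 0 then cl (y / V) * V + y % V else rs (y / V) 0 * V

noncomputable def rsA (K m V X0 : ℕ) (rs : ℕ → ℕ → ℕ) (tn : ℕ → ℕ) (y r : ℕ) : ℕ :=
  if tn (y / V) = 0 then rs (y / V) (r / V) * V + r % V
  else (X0 + min (r / V) X0) * V + addv K m (y % V) (cmb K m (r % V))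

/-- MODULE AU (hypotheses StL1 .. StL5, StVE).  The functions of this call structure are E2 and polynomially bounded.
Proof.  KK c |w| = log^c + 2 is E2 (StL5, `E2.powc`, m and c are constants), VV = (KK + 1)^m (`E2.powc`), (n+2)^e, `/`, `%`: StL4, case distinctions StL2, min StL1.  addv and cmb for the constant m: finite
sums over r < m (`E2.fsum`) of E2 functions: dg (K+1) a r with a constant r (StL5), tt K a r is E2 by induction on r.  The last two functions: dg.  Bounds: log2 n ≤ n gives KK + 1 ≤ (n+2)^(c+2), V ≤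
(n+2)^((c+2) m); V > 0; lfA ≤ (X0 + 1) V, clA < X0 V, rsA ≤ (2 X0) V + V for X0 = (n+2)^e; addv, cmb < V (StVE; KK ≥ 1); everything is < 4 X0 V ≤ (n+2)^(e + 2 + (c+2) m). -/
def StAU : Prop :=
  ∀ {α : Type} [Fintype α] (cl lf tn : List α → ℕ → ℕ) (rs : List α → ℕ → ℕ → ℕ) (c0 : List α → ℕ) (e c m i : ℕ),
    E2 (fun w v => cl w (v 0)) → E2 (fun w v => rs w (v 0) (v 1)) → E2 (fun w v => lf w (v 0)) → E2 (fun w v => tn w (v 0)) →
    E2 (fun w _ => c0 w) →
    (∀ w x, cl w x < (w.length + 2) ^ e) → (∀ w x r, rs w x r < (w.length + 2) ^ e) → (∀ w x, lf w x < (w.length + 2) ^ e) →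
    (∀ w, c0 w < (w.length + 2) ^ e) →
    E2 (fun w v => lfA (VV c m w.length) ((w.length + 2) ^ e) (lf w) (v 0)) ∧
    E2 (fun w v => clA (VV c m w.length) (cl w) (rs w) (tn w) (v 0)) ∧
    E2 (fun w v => rsA (KK c w.length) m (VV c m w.length) ((w.length + 2) ^ e) (rs w) (tn w) (v 0) (v 1)) ∧
    E2 (fun w _ => c0 w * VV c m w.length) ∧
    E2P (α := α) (fun w v => v 0 / VV c m w.length = 0 ∧ dg (KK c w.length + 1) (v 0 % VV c m w.length) i = 0) ∧
    ∃ e' : ℕ, (∀ w x, lfA (VV c m w.length) ((w.length + 2) ^ e) (lf w) x < (w.length + 2) ^ e') ∧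
      (∀ w x, clA (VV c m w.length) (cl w) (rs w) (tn w) x < (w.length + 2) ^ e') ∧
      (∀ w x r, rsA (KK c w.length) m (VV c m w.length) ((w.length + 2) ^ e) (rs w) (tn w) x r < (w.length + 2) ^ e') ∧
      (∀ w, c0 w * VV c m w.length < (w.length + 2) ^ e')

/-- MODULE CO (hypotheses StFO, StVE).  Completeness: derivations with forests give derivations of bounded rank of the new call structure.
Proof.  V = (K+1)^m.  Induction on EvF (for all a < V, all j).  Note r < X0 for every value r (from lf; induction, or in the same induction).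
leaf: (x V + a) / V = x < X0, % V = a, so lfA = r V + a + 1; vec nil = 0, addv a 0 = a: `EvK.leaf`, c = 0.
tree: f = nd f' nil.  For every j, the induction hypothesis for rs x 0, a := 0 gives c' ≤ cn K j f' and EvK j (rs x 0 V) (r V + vec f') c' (addv 0 v = v).  lfA (x V + a) = 0, clA = rs x 0 V, rsA (x V + a)
(r V + vec f') = (X0 + r) V + addv a (cmb (vec f')) =: z, a leaf with the value r V + addv a (vec (nd f' nil)) (StVE; min r X0 = r), so `EvK.node` gives the count max 1 (c' + 0).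
node: f = app f1 f2: induction hypothesis for cl x and a: value r1 V + a1, a1 = addv a (vec f1) < V; rsA = rs x r1 V + a1; induction hypothesis for rs x r1 and a1: value r2 V + addv a1 (vec f2) = r2 V + addv a
(vec f) (StVE).  `EvK.node` gives the count max 1 (c1 + c2), c1 + c2 ≤ cn K j f1 + cn K j f2 = cn K j f (StFO).
In both cases: by induction on j, if 1 ≤ cn K j f then the count is at most cn K j f (tree: cn K j f' ≤ cn K j (nd f' nil), StFO (4)).  If cn K j f = 0 then j ≠ 0 (f ≠ nil: a tree, or f1 ≠ nil by hypothesis, so app f1 f2 ≠ nil;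
StFO (7)), j = j' + 1, and StFO (5) gives cn K j' f ≤ wd f * K ≤ L * K, so the statement for j' (a count ≤ cn K j' f < L * K + 1) and `EvK.up` give count 0. -/
def StCO : Prop :=
  ∀ (lf cl tn : ℕ → ℕ) (rs : ℕ → ℕ → ℕ) (gd : ℕ → Prop) (K m L X0 : ℕ), 1 ≤ K →
    (∀ x, cl x < X0) → (∀ x r, rs x r < X0) → (∀ x, lf x < X0) →
    (∀ x, gd x → lf x = 0 → tn x ≠ 0 → gd (rs x 0)) →
    (∀ x, gd x → lf x = 0 → tn x = 0 → gd (cl x) ∧ ∀ r f, EvF lf cl rs tn (cl x) r f → f ≠ Fo.nil ∧ gd (rs x r)) →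
    (∀ x r f, gd x → EvF lf cl rs tn x r f → wd f ≤ L) →
    ∀ x r f, EvF lf cl rs tn x r f → gd x → x < X0 → ∀ j a, a < (K + 1) ^ m →
      ∃ c ≤ cn K j f, EvK (lfA ((K + 1) ^ m) X0 lf) (clA ((K + 1) ^ m) cl rs tn) (rsA K m ((K + 1) ^ m) X0 rs tn) (L * K + 1) j
        (x * (K + 1) ^ m + a) (r * (K + 1) ^ m + addv K m a (vec K m f)) c

/-- MODULE SO (hypothesis StVE).  Soundness.
Proof.  Induction on Ev (V = (K+1)^m, y = x V + a, y / V = x, y % V = a).  leaf: X0 ≤ x is false, so lf x ≠ 0 and v = (lf x - 1) V + a: `EvF.leaf`, forest nil (addv a 0 = a).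
node: lfA y = 0, so lf x = 0.  tn x = 0: clA y = cl x V + a, induction hypothesis: v1 = r1 V + a1, a1 = addv a (vec f1) < V, rsA y v1 = rs x r1 V + a1; induction hypothesis and associativity: `EvF.node`.
tn x ≠ 0: clA y = rs x 0 V + 0, v1 = r1 V + addv 0 (vec f1) = r1 V + vec f1, r1 < X0; rsA y v1 = (X0 + r1) V + b, b = addv a (cmb (vec f1)) = addv a (vec (nd f1 nil)) < V; its lfA is r1 V + b + 1 ≠ 0, so its
derivation is a leaf with the value r1 V + b: `EvF.tree`.  r < X0 always: from lf x < X0. -/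
def StSO : Prop :=
  ∀ (lf cl tn : ℕ → ℕ) (rs : ℕ → ℕ → ℕ) (K m X0 : ℕ), 1 ≤ K → (∀ x, cl x < X0) → (∀ x r, rs x r < X0) → (∀ x, lf x < X0) →
    ∀ y v i n, Ev (lfA ((K + 1) ^ m) X0 lf) (clA ((K + 1) ^ m) cl rs tn) (rsA K m ((K + 1) ^ m) X0 rs tn) (fun _ => 0) y v i n →
      ∀ x a, x < X0 → a < (K + 1) ^ m → y = x * (K + 1) ^ m + a →
        ∃ r f, EvF lf cl rs tn x r f ∧ r < X0 ∧ v = r * (K + 1) ^ m + addv K m a (vec K m f)

/-- MODULE AF (hypotheses StAB, StAU, StCO, StSO, StVE, StA2 of PT).  The abstract theorem with forests.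
Proof.  For (m, i) apply StAB to lfA, clA, rsA with K = KK c |w|, V = VV c m |w| = (K+1)^m, X0 = (|w|+2)^e, c0' = c0 V, gv w r := r / V = 0 ∧ dg (K+1) (r % V) i = 0, Rf' = Rf + 1 levels, L1 = {w | ∃ f, EvF c0 0 f ∧
cn K (Rf |w| + 1) f = 0 ∧ dg (K+1) (vec K m f) i = 0}, L2 = the same without the condition on cn.  E2 and bounds: StAU.  L1: StCO with j = Rf + 1, a = 0: c ≤ 0, value 0 V + addv 0 (vec f) = vec f < V, TH = L K + 1 ≤
c' (log n)^c' + c' with c' = 3 L + 1 + c (log n = 0: L * 0^c ≤ L; log n ≥ 1: (log n)^c ≤ (log n)^c').  L2: StSO.  DSPACE of (Rf + 2) log (n+2) is in DSPACE of (Rf + 1) log (n+2).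
First claim: m = 0, i = 0 (V = 1, vec = 0, dg 0 = 0).  Second claim: Rf = R constant, m = R + 2, i = R + 1: dg (K+1) (vec K m f) (R+1) = min K (cn K (R+1) f) = 0 iff cn K (R+1) f = 0, so L1 = L2; and (R + 1) log (n+2)
≤ C' log n + C' (StA2, second part). -/
def StAF : Prop :=
  ∀ {α : Type} [Fintype α] (cl lf tn : List α → ℕ → ℕ) (rs : List α → ℕ → ℕ → ℕ) (c0 : List α → ℕ) (gd : List α → ℕ → Prop) (e c L : ℕ),
    E2 (fun w v => cl w (v 0)) → E2 (fun w v => rs w (v 0) (v 1)) → E2 (fun w v => lf w (v 0)) → E2 (fun w v => tn w (v 0)) →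
    E2 (fun w _ => c0 w) →
    (∀ w x, cl w x < (w.length + 2) ^ e) → (∀ w x r, rs w x r < (w.length + 2) ^ e) → (∀ w x, lf w x < (w.length + 2) ^ e) →
    (∀ w, c0 w < (w.length + 2) ^ e) →
    (∀ w, gd w (c0 w)) →
    (∀ w x, gd w x → lf w x = 0 → tn w x ≠ 0 → gd w (rs w x 0)) →
    (∀ w x, gd w x → lf w x = 0 → tn w x = 0 →
      gd w (cl w x) ∧ ∀ r f, EvF (lf w) (cl w) (rs w) (tn w) (cl w x) r f → f ≠ Fo.nil ∧ gd w (rs w x r)) →
    (∀ w x r f, gd w x → EvF (lf w) (cl w) (rs w) (tn w) x r f → wd f ≤ L) →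
    (∀ Rf : ℕ → ℕ, E2 (α := α) (fun w _ => Rf w.length) → ∃ Lg : Set (List α),
      Lg ∈ DSPACE (α := α) (fun n => (Rf n + 1) * Nat.log 2 (n + 2)) ∧
      {w | ∃ f, EvF (lf w) (cl w) (rs w) (tn w) (c0 w) 0 f ∧ cn (KK c w.length) (Rf w.length + 1) f = 0} ⊆ Lg ∧
      Lg ⊆ {w | ∃ f, EvF (lf w) (cl w) (rs w) (tn w) (c0 w) 0 f}) ∧
    (∀ R : ℕ, {w | ∃ f, EvF (lf w) (cl w) (rs w) (tn w) (c0 w) 0 f ∧ cn (KK c w.length) (R + 1) f = 0} ∈
      DSPACE (α := α) (fun n => Nat.log 2 n))

/-! ### First acceptance -/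

section
variable {C G : Type}

/-- `Pops` without configurations in `F` (also the last one is not in `F`). -/
inductive PopsF (mv : C → G → C → List G → Prop) (F : C → Prop) : C → List G → C → Fo → Prop where
  | nil (c : C) : ¬ F c → PopsF mv F c [] c Fo.nil
  | cons (c c1 c2 c3 : C) (Z : G) (γ β : List G) (f g : Fo) : ¬ F c → mv c Z c1 γ → PopsF mv F c1 γ c2 f → PopsF mv F c2 β c3 g →
      PopsF mv F (c) (Z :: β) c3 (Fo.nd f g)

/-- `Accs` whose configurations except the last one are not in `F`. -/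
inductive AccsF (mv : C → G → C → List G → Prop) (F : C → Prop) : C → List G → Fo → Prop where
  | fin (c : C) (β : List G) : F c → AccsF mv F c β Fo.nil
  | down (c c1 : C) (Z : G) (γ β : List G) (f : Fo) : ¬ F c → mv c Z c1 γ → AccsF mv F c1 γ f → AccsF mv F c (Z :: β) (Fo.nd f Fo.nil)
  | next (c c1 c2 : C) (Z : G) (γ β : List G) (f g : Fo) : ¬ F c → mv c Z c1 γ → PopsF mv F c1 γ c2 f → AccsF mv F c2 β g →
      AccsF mv F c (Z :: β) (Fo.nd f g)

end

/-- MODULE FI (hypothesis StFO).  First acceptance.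
Proof.  Lemma: Pops mv c β c' f implies PopsF mv F c β c' f or ∃ f1, AccsF mv F c β f1 ∧ ∀ K j, cn K j f1 ≤ cn K j f.  Induction; if F c: `AccsF.fin`, nil.  cons: the induction hypothesis for γ: `AccsF.down` with
forest nd f1 nil ≤ nd f g (StFO (2), cn K j nil = 0 ≤ ..), or PopsF, then the induction hypothesis for β: `AccsF.next` with nd f g1 ≤ nd f g, or `PopsF.cons`.  Then Accs: the same way by induction.  The converse inclusions (third and
fourth claim): induction.  Last claims: induction. -/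
def StFI : Prop :=
  ∀ {C G : Type} (mv : C → G → C → List G → Prop) (F : C → Prop),
    (∀ c β f, Accs mv F c β f → ∃ f1, AccsF mv F c β f1 ∧ ∀ K j, cn K j f1 ≤ cn K j f) ∧
    (∀ c β f, AccsF mv F c β f → Accs mv F c β f) ∧
    (∀ c β c' f, PopsF mv F c β c' f → Pops mv c β c' f) ∧
    (∀ c β f, AccsF mv F c β f → wd f ≤ β.length) ∧
    (∀ c β c' f, PopsF mv F c β c' f → wd f ≤ β.length ∧ ¬ F c ∧ ¬ F c')

/-! ### Multihead automata -/

/-- The nodes of the table system which are nodes of the forest. -/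
noncomputable def tnM {α : Type} [Fintype α] (T : MTab) (w : List α) (x : ℕ) : ℕ :=
  if T.cl w x = T.ac w.length ∧ T.lf w x = 0 then 1 else 0

/-- MODULE MR1 (hypothesis StG3).  Runs give derivations.
Template for the use of StG3: Pool/Agent/Helper91/PT/M_G4.lean; `mnd_lt` in Pool/Agent/Helper83/PT/M_W.lean: nodes are < ac.
Proof.  First PopsF (induction), then AccsF (induction).  fin: lf = 1 (`EvF.leaf`, value 0).  PopsF.nil: lf of the node of (q, [], p) is code + 2.  A move from (q, p) with the top symbol Z to (q1, p1) (p1 = nps w d p ≤ |w| + 1)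
with the word γ (|γ| ≤ K by MDesc.hKt), q not accepting: the node of (q, [Z], p) has lf = 0, cl = ac, so tnM = 1, and rs x 0 = node of (q1, γ, p1): `EvF.tree` with the forest nd f nil.  If β = [] this is all
(PopsF c2 [] c3 g: c3 = c2, g = nil; AccsF c2 [] g: impossible after PopsF (F c2 and ¬ F c2)).  β = Y :: β': the node of (q, Z :: Y :: β', p) has lf = 0, cl = node of (q, [Z], p) < ac, so tnM = 0: `EvF.node` with f1 = nd f nil,
app (nd f nil) g = nd f g; rs x (code + 1) = node of (q2, Y :: β', p2); after `down` the value of [Z] is 0, rs x 0 = ac (a leaf, value 0): forest app (nd f nil) nil = nd f nil. -/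
def StMR1 : Prop :=
  ∀ {α : Type} [Fintype α] (M : MPDA α) (T : MTab) (K : ℕ) (num : M.Q → List M.Γ → ℕ) (qn : M.Q → ℕ), MDesc M T K num qn →
    ∀ (w : List α) (q : M.Q) (β : List M.Γ) (p : Fin M.k → ℕ), β.length ≤ K → (∀ j, p j ≤ w.length + 1) →
      (∀ q' p' f, PopsF (mmv M w) (fun c => M.acc c.1) (q, p) β (q', p') f → (∀ j, p' j ≤ w.length + 1) ∧
        EvF (T.lf w) (T.cl w) (T.rs w) (tnM T w) (mnd M num w.length q β p) (qn q' * (w.length + 2) ^ M.k + pcd w.length p' + 1) f) ∧
      (∀ f, AccsF (mmv M w) (fun c => M.acc c.1) (q, p) β f →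
        EvF (T.lf w) (T.cl w) (T.rs w) (tnM T w) (mnd M num w.length q β p) 0 f)

/-- MODULE MR2 (hypothesis StG3).  Derivations give runs.
Template: Pool/Agent/Helper91/PT/M_G4.lean (with the flags removed).
Proof.  Induction on EvF.  leaf: q accepting: value 0, `AccsF.fin`; β = []: `PopsF.nil`; otherwise lf = 0.  tree or node at (q, [Z], p) with a move: tnM = 1, so it is `tree`, rs x 0 = node of (q1, γ, p1): value 0:
`AccsF.down` (β = []), value ≠ 0: `PopsF.cons` with `PopsF.nil` (¬ F c' by the last claim: PopsF ends outside of F; prove it by induction).  No move: cl x = x < ac, so tnM = 0, `node`: impossible (a lemma by induction on EvF: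
lf x = 0, cl x = x, tn x = 0 → False).  (q, Z :: Y :: β', p): cl x = node of [Z] < ac, so tnM = 0: `node`; the induction hypothesis for cl x: value 0: AccsF (q, p) [Z] f1, which (q not accepting) is nd f nil with `down`
(`next` is impossible for [Z]: PopsF ends in a configuration not in F, AccsF c2 [] needs F c2), rs x 0 = ac: leaf, value 0, forest nil: `AccsF.down` for Z :: Y :: β'.  Value code of (q2, p2): PopsF (q, p) [Z] (q2, p2) (nd f nil), the
induction hypothesis for (q2, Y :: β', p2): `AccsF.next` or `PopsF.cons`. -/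
def StMR2 : Prop :=
  ∀ {α : Type} [Fintype α] (M : MPDA α) (T : MTab) (K : ℕ) (num : M.Q → List M.Γ → ℕ) (qn : M.Q → ℕ), MDesc M T K num qn →
    ∀ (w : List α) (x v : ℕ) (f : Fo), EvF (T.lf w) (T.cl w) (T.rs w) (tnM T w) x v f →
      ∀ (q : M.Q) (β : List M.Γ) (p : Fin M.k → ℕ), β.length ≤ K → (∀ j, p j ≤ w.length + 1) → x = mnd M num w.length q β p →
      (v = 0 → AccsF (mmv M w) (fun c => M.acc c.1) (q, p) β f) ∧
      (v ≠ 0 → ∃ (q' : M.Q) (p' : Fin M.k → ℕ), v = qn q' * (w.length + 2) ^ M.k + pcd w.length p' + 1 ∧ (∀ j, p' j ≤ w.length + 1) ∧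
        PopsF (mmv M w) (fun c => M.acc c.1) (q, p) β (q', p') f)

/-- MODULE MT (hypotheses StAF, StFO, StFI, StMR1, StMR2, StG1, StG2, StG3, StL1, StL2).  The theorem for multihead automata.
Proof.  Tables T from StG2.  StAF with cl, lf, rs of the tables, tn = tnM T (E2: StG1 gives cl, lf and ac = F (n+2)^k; StL2), c0 w = num q0 [z0] (n+2)^k (= mnd of (q0, [z0], 0): pcd n 0 = 0), gd w x := x = ac or x = mnd .. q β p with
|β| ≤ K and p ≤ |w| + 1, L = K, bounds: e from StG1, c0 < ac (`mnd_lt`).  Closure of gd: x = ac has lf = 1; for x = mnd q β p with lf x = 0 use StG3: q not accepting, β ≠ []; β = [Z] with a move: tn = 1, rs x 0 = mnd q1 γ p1; β = [Z] without a move: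
cl x = x < ac, tn = 0, gd (cl x), and there is no derivation of x; β = Z :: Y :: β': cl x = mnd q [Z] p; a derivation of cl x with value 0: rs x 0 = ac, with value ≠ 0: by StMR2 the value is the code of (q', p'), so rs x r = mnd q' (Y :: β') p'; the
forest of [Z] is not nil (from StMR2: AccsF with ¬ F c or PopsF for [Z]).  Width: StMR2 and StFI (4), (5); ac: forest nil.  EvF c0 0 f ↔ AccsF (q0, 0) [z0] f (StMR1, StMR2), and by StFI ∃ f, MTree M w f ∧ cn K j f = 0 ↔ ∃ f, AccsF .. f ∧
cn K j f = 0; the same without cn. -/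
def StMT : Prop :=
  ∀ {α : Type} [Fintype α] (M : MPDA α) (c : ℕ),
    (∀ Rf : ℕ → ℕ, E2 (α := α) (fun w _ => Rf w.length) → ∃ Lg : Set (List α),
      Lg ∈ DSPACE (α := α) (fun n => (Rf n + 1) * Nat.log 2 (n + 2)) ∧
      {w | ∃ f, MTree M w f ∧ cn (KK c w.length) (Rf w.length + 1) f = 0} ⊆ Lg ∧ Lg ⊆ {w | ∃ f, MTree M w f}) ∧
    (∀ R : ℕ, {w | ∃ f, MTree M w f ∧ cn (KK c w.length) (R + 1) f = 0} ∈ DSPACE (α := α) (fun n => Nat.log 2 n))

/-! ### One-way automata -/

/-- MODULE D1 (hypothesis StFO).  Runs of `mpd M` (St7 of PT) give runs of `M`.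
Proof.  `Cor` is in St7 of PT; see StDP1 there for the cases of the moves.  Claims, for configurations (((q, o), e), p) of `mpd M` and (q, v) of M with Cor w o e (p 0) v: (P) Pops (mmv (mpd M) w) (((q,o),e),p) β (((q',o'),e'),p') F implies ∃ v' f, Cor w o' e' (p' 0) v' ∧
Pops (dmv M) (q, v) β (q', v') f ∧ ∀ K j, cn K j f ≤ cn K j F.  (A) Accs .. (((q,o),e),p) β F implies ∃ f, Accs (dmv M) .. (q, v) β f ∧ ∀ K j, cn K j f ≤ cn K j F.  Induction on Pops, Accs.  A move of `mpd M` is either a move of M (the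
same γ; the new configurations are again in the relation; StFO (2)), or idle: γ = [Z], and the new configuration belongs to the same (q, v).  Idle, in cons: the induction hypothesis gives Pops (q, v) [Z] (q2, v2) f1, f1 ≤ F1; inversion: f1 = nd a nil with a move
of M and Pops .. a; so Pops (q, v) (Z :: β) (nd a g) and nd a g = (StFO (3)) nd (nd a nil) g ≤ nd F1 G.  Idle in Accs.next: the same.  Idle in Accs.down: Accs (q, v) [Z] f1: fin: Accs.fin for Z :: β, nil; down: nd a nil = f1 ≤ F1 ≤ nd F1 nil (StFO (4)); next: Accs c2 [] g is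
fin, g = nil: Accs.next with Accs.fin c2 β.  fin: acc q, o = none, e = true: p 0 = |w| + 1, v = [].  Start: Cor w none false 0 w. -/
def StD1 : Prop :=
  ∀ {α : Type} [Fintype α] (M : DPDA α) (w : List α) (F : Fo), MTree (Pool.Agent.Helper83.PT.mpd M) w F →
    ∃ f, DTree M w f ∧ ∀ K j, cn K j f ≤ cn K j F

/-- MODULE D2 (hypothesis StFO).  Runs of `M` are simulated.
Proof.  As StDP2 of PT.  For 1 ≤ p 0 ≤ |w| + 1, v = w.drop (p 0 - 1), e = true ↔ p 0 = |w| + 1: Pops (dmv M) (q, v) β (q', v') f gives e', p' in the same relation to v' and Pops (mmv (mpd M) w) (((q,none),e),p) β (((q',none),e'),p') F with cn K j F ≤ cn K j f for all K, j;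
and Accs gives Accs with forest F ≤ f, wd F = wd f.  An ε-move is one move (StFO (2)); a reading move is an idle move (γ = [Z]) and the move: nd f g becomes nd (nd F nil) G, cn K j of which is that of nd F G (StFO (3)); for `cons`: the idle move, then Pops of [Z] (cons with
`Pops.nil`).  Accs.down with a reading move: Accs.down (idle) of Accs.down; Accs.next with a reading move: Accs.next (idle, Pops of [Z] as before).  Start: a first idle move on lm to cell 1, and if w = [] a second idle move (e := true): forests nd F nil or nd (nd F nil) nil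
with wd F ≤ 1 (stack [z0]): StFO (6). -/
def StD2 : Prop :=
  ∀ {α : Type} [Fintype α] (M : DPDA α) (w : List α) (f : Fo), DTree M w f →
    ∃ F, MTree (Pool.Agent.Helper83.PT.mpd M) w F ∧ ∀ K j, 2 ≤ K → cn K (j + 1) F ≤ cn K (j + 1) f

/-- MODULE LG.  The language of the automaton consists of the words which have a forest.
Proof.  General: for a pushdown system let Step (c, Z :: s) (c', γ ++ s) if mv c Z c' γ.  Accs mv F c β f → a run from (c, β ++ s) to some (c', s') with F c', for every s; Pops mv c β c' f → a run from (c, β ++ s) to (c', s), for every s (induction).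
Conversely, by strong induction on the length l of the run: a run of l steps from (c, β) to (c', s') with F c' gives ∃ f, Accs mv F c β f; a run of l steps from (c, β) to (c', []) gives ∃ f, Pops mv c β c' f.  Decompose the run of (c1, γ ++ β) (lemma: a run of l
steps from (c, δ ++ τ) either is a run of (c, δ) with τ appended, or splits into a run of l1 steps (c, δ) → (c1, []) and a run of l - l1 steps from (c1, τ); induction on l; compare Helper6/DC/M_G5.lean).  Then DPDA.Step M (q, u, s) (q', u', s') is the step of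
dmv M, MPDA.Step that of mmv; ReflTransGen is a run of some length. -/
def StLG : Prop :=
  (∀ {α : Type} (M : DPDA α) (w : List α), w ∈ M.lang ↔ ∃ f, DTree M w f) ∧
  (∀ {α : Type} (M : MPDA α) (w : List α), w ∈ M.lang ↔ ∃ f, MTree M w f)

/-- MODULE TU (hypothesis StLG or a direct proof).  Few turns give small numbers `cn 2 1`: words accepted with at most t turns have a forest f with cn K 1 f ≤ t for K ≥ 2.
Proof.  See `TRun`, `tu`, `fl` in Pool/Agent/Helper83/PT/Turn.lean.  Claims, by induction on the length of the run (as in LG): for a run TRun t (u, q, p, β ++ s) .. which pops exactly β: Pops (q, p) β (q', p') f with cn K 1 f ≤ t, and the flag after a run that pops a nonempty β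
is false; if moreover cn K 0 f ≥ 2 ... (each tree with at least K ≥ 2 disjoint subtrees contains a move with |γ| ≥ 2 followed by a pop, inside its own time interval, so a turn). -/
def StTU : Prop :=
  ∀ {α : Type} (M : MPDA α) (w : List α) (t : ℕ), Pool.Agent.Helper83.PT.AccTurns M w t →
    ∃ f, MTree M w f ∧ ∀ K, 2 ≤ K → cn K 1 f ≤ t

/-- MODULE DT (hypotheses StMT, StD1, StD2).  The theorem for one-way automata.
Proof.  {w | ∃ f, DTree M w f ∧ cn K (j+1) f = 0} = {w | ∃ F, MTree (mpd M) w F ∧ cn K (j+1) F = 0} for K = KK c |w| ≥ 2, and ∃ f, DTree M w f ↔ ∃ F, MTree (mpd M) w F. -/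
def StDT : Prop :=
  ∀ {α : Type} [Fintype α] (M : DPDA α) (c : ℕ),
    (∀ Rf : ℕ → ℕ, E2 (α := α) (fun w _ => Rf w.length) → ∃ Lg : Set (List α),
      Lg ∈ DSPACE (α := α) (fun n => (Rf n + 1) * Nat.log 2 (n + 2)) ∧
      {w | ∃ f, DTree M w f ∧ cn (KK c w.length) (Rf w.length + 1) f = 0} ⊆ Lg ∧ Lg ⊆ {w | ∃ f, DTree M w f}) ∧
    (∀ R : ℕ, {w | ∃ f, DTree M w f ∧ cn (KK c w.length) (R + 1) f = 0} ∈ DSPACE (α := α) (fun n => Nat.log 2 n))

end Pool.Agent.Helper74.BS
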